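import Mathlib
import Pool.Agent.V11147.AugZ

/-!
# The 3-augmented Zarankiewicz number is of order `m n`
-/

set_option autoImplicit false

namespace Pool.Agent.Results.MP_10302a_co.QuadraticA

open Pool.Agent.V11147.AugZ

/-- `z_{3A}(m, n) ≥ ⌊m/2⌋ ⌊n/2⌋` for all `m, n`, and so `z_{3A}(m, n) / (m n^{1/2} + n)` is
unbounded. -/
theorem result :
    (∀ m n : ℕ, (m / 2) * (n / 2) ≤ z3A m n) ∧
    ¬ ∃ C : ℝ, ∀ m n : ℕ, 2 ≤ m → 2 ≤ n →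
      (z3A m n : ℝ) ≤ C * ((m : ℝ) * Real.sqrt (n : ℝ) + (n : ℝ)) := by
  refine ⟨z3A_ge, ?_⟩
  rintro ⟨C, hC⟩
  obtain ⟨s, hs⟩ := exists_nat_gt (max (3 * C) 1)
  have hs1 : (1 : ℝ) < s := (le_max_right _ _).trans_lt hs
  have hsC : 3 * C < (s : ℝ) := (le_max_left _ _).trans_lt hs
  have hs2 : 1 < s := by exact_mod_cast hs1
  have h := hC (4 * s ^ 2) (4 * s ^ 2) (by nlinarith) (by nlinarith)
  have h2 := z3A_ge (4 * s ^ 2) (4 * s ^ 2)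
  have h3 : 4 * s ^ 2 / 2 = 2 * s ^ 2 := by omega
  rw [h3] at h2
  have h4 : ((2 * s ^ 2 * (2 * s ^ 2) : ℕ) : ℝ) ≤ (z3A (4 * s ^ 2) (4 * s ^ 2) : ℝ) := by
    exact_mod_cast h2
  have h5 : Real.sqrt ((4 * s ^ 2 : ℕ) : ℝ) = 2 * s := by
    push_cast
    rw [show (4 : ℝ) * (s : ℝ) ^ 2 = (2 * s) ^ 2 by ring]
    exact Real.sqrt_sq (by positivity)
  rw [h5] at h
  push_cast at h h4
  have h6 := h4.trans h
  have h7 : (4 : ℝ) * s ^ 2 * (2 * s) + 4 * s ^ 2 ≤ 12 * s ^ 3 := by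
    have : (4 : ℝ) * s ^ 2 ≤ 4 * s ^ 3 := by
      have : (s : ℝ) ^ 2 ≤ s ^ 3 := pow_le_pow_right₀ hs1.le (by norm_num)
      linarith
    nlinarith
  have h8 : (0 : ℝ) < 4 * s ^ 2 * (2 * s) + 4 * s ^ 2 := by positivity
  have h9 : (2 : ℝ) * s ^ 2 * (2 * s ^ 2) < (s / 3) * (12 * s ^ 3) := by
    calc (2 : ℝ) * s ^ 2 * (2 * s ^ 2) ≤ C * (4 * s ^ 2 * (2 * s) + 4 * s ^ 2) := h6
      _ < (s / 3) * (4 * s ^ 2 * (2 * s) + 4 * s ^ 2) := by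
        refine mul_lt_mul_of_pos_right ?_ h8
        linarith
      _ ≤ (s / 3) * (12 * s ^ 3) := by
        refine mul_le_mul_of_nonneg_left h7 ?_
        positivity
  have h10 : (s / 3 : ℝ) * (12 * s ^ 3) = 2 * s ^ 2 * (2 * s ^ 2) := by ring
  linarith

end Pool.Agent.Results.MP_10302a_co.QuadraticA
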