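import Mathlib
import Pool.Agent.V11147.AugZ

/-!
# The restricted 3-augmented Zarankiewicz number is not of the classical order
-/

set_option autoImplicit false

namespace Pool.Agent.Results.MP_10302a_co.UnboundedL

open Pool.Agent.V11147.AugZ

/-- For `m ≥ 1` and `n ≥ C(m, 2)` one has `z(m, n) = n + C(m, 2)` and
`z_{3L}(m, n) ≥ z(m, n) + ⌊(m-1)/2⌋ ⌊(n - C(m, 2))/2⌋`, and so `z_{3L}(m, n) / (m n^{1/2} + n)` is
unbounded. -/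
theorem result :
    (∀ m n : ℕ, 0 < m → m.choose 2 ≤ n →
      z m n + ((m - 1) / 2) * ((n - m.choose 2) / 2) ≤ z3L m n) ∧
    ¬ ∃ C : ℝ, ∀ m n : ℕ, 2 ≤ m → 2 ≤ n →
      (z3L m n : ℝ) ≤ C * ((m : ℝ) * Real.sqrt (n : ℝ) + (n : ℝ)) := by
  refine ⟨fun m n hm hn => z3L_ge hm hn, ?_⟩
  rintro ⟨C, hC⟩
  obtain ⟨t, ht⟩ := exists_nat_gt (max (8 * C) 1)
  have ht1 : (1 : ℝ) < t := (le_max_right _ _).trans_lt ht
  have htC : 8 * C < (t : ℝ) := (le_max_left _ _).trans_lt ht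
  have ht2 : 1 < t := by exact_mod_cast ht1
  obtain ⟨m, hm⟩ : ∃ m : ℕ, m = 2 * t + 1 := ⟨_, rfl⟩
  have hm2 : 2 ≤ m := by omega
  have hchoose : m.choose 2 + 1 ≤ m ^ 2 := by
    rw [Nat.choose_two_right]
    have h1 : m * (m - 1) / 2 ≤ m * (m - 1) := Nat.div_le_self _ _
    have h2 : m * (m - 1) + m = m ^ 2 := by
      obtain ⟨k, rfl⟩ : ∃ k, m = k + 1 := ⟨m - 1, by omega⟩
      simp only [Nat.add_sub_cancel]
      ring
    omega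
  have hpow : 2 * m ^ 2 ≤ m ^ 4 := by
    have hm3 : 2 ≤ m ^ 2 := by
      calc 2 ≤ m := hm2
        _ ≤ m ^ 2 := Nat.le_self_pow (by norm_num) m
    have : 2 * m ^ 2 ≤ m ^ 2 * m ^ 2 := Nat.mul_le_mul_right _ hm3
    calc 2 * m ^ 2 ≤ m ^ 2 * m ^ 2 := this
      _ = m ^ 4 := by ring
  have hone : 1 ≤ m ^ 2 := Nat.one_le_pow _ _ (by omega)
  have h := hC m (m ^ 4) hm2 (by omega)
  have h2 := z3L_ge (m := m) (n := m ^ 4) (by omega) (by omega)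
  have hw : m ^ 4 ≤ 4 * ((m ^ 4 - m.choose 2) / 2) := by omega
  have hh : (m - 1) / 2 = t := by omega
  rw [hh] at h2
  have h3 : t * ((m ^ 4 - m.choose 2) / 2) ≤ z3L m (m ^ 4) := by omega
  have h4 : t * m ^ 4 ≤ 4 * z3L m (m ^ 4) := by
    calc t * m ^ 4 ≤ t * (4 * ((m ^ 4 - m.choose 2) / 2)) := Nat.mul_le_mul_left _ hw
      _ = 4 * (t * ((m ^ 4 - m.choose 2) / 2)) := by ring
      _ ≤ 4 * z3L m (m ^ 4) := Nat.mul_le_mul_left _ h3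
  have h5 : (t : ℝ) * (m : ℝ) ^ 4 ≤ 4 * (z3L m (m ^ 4) : ℝ) := by exact_mod_cast h4
  have h6 : Real.sqrt ((m ^ 4 : ℕ) : ℝ) = (m : ℝ) ^ 2 := by
    push_cast
    rw [show (m : ℝ) ^ 4 = (m ^ 2) ^ 2 by ring]
    exact Real.sqrt_sq (by positivity)
  rw [h6] at h
  push_cast at h
  have hm1 : (1 : ℝ) ≤ m := by exact_mod_cast (by omega : 1 ≤ m)
  have h7 : (m : ℝ) * m ^ 2 + m ^ 4 ≤ 2 * m ^ 4 := by
    have : (m : ℝ) ^ 3 ≤ m ^ 4 := pow_le_pow_right₀ hm1 (by norm_num)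
    nlinarith
  have h8 : (0 : ℝ) < (m : ℝ) * m ^ 2 + m ^ 4 := by positivity
  have h9 : (t : ℝ) * (m : ℝ) ^ 4 < 4 * ((t / 8) * (2 * m ^ 4)) := by
    calc (t : ℝ) * (m : ℝ) ^ 4 ≤ 4 * (z3L m (m ^ 4) : ℝ) := h5
      _ ≤ 4 * (C * ((m : ℝ) * m ^ 2 + m ^ 4)) := by linarith
      _ < 4 * ((t / 8) * ((m : ℝ) * m ^ 2 + m ^ 4)) := by
        have : C * ((m : ℝ) * m ^ 2 + m ^ 4) < (t / 8) * ((m : ℝ) * m ^ 2 + m ^ 4) :=
          mul_lt_mul_of_pos_right (by linarith) h8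
        linarith
      _ ≤ 4 * ((t / 8) * (2 * m ^ 4)) := by
        have : (t / 8 : ℝ) * ((m : ℝ) * m ^ 2 + m ^ 4) ≤ (t / 8) * (2 * m ^ 4) :=
          mul_le_mul_of_nonneg_left h7 (by positivity)
        linarith
  have h10 : 4 * ((t / 8 : ℝ) * (2 * m ^ 4)) = t * m ^ 4 := by ring
  linarith

end Pool.Agent.Results.MP_10302a_co.UnboundedL
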